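import Pool.Agent.J4.H83.Hash
import Pool.Agent.J4.H83.Trans

/-!
# The log-rank conjecture needs a one-sided combination of equality matrices only

A nonnegative combination `P` of rectangles, or more generally of equality matrices
`[phi(x) = psi(y)]`, which separates the two values of `F` one-sidedly with a multiplicative gap
(`P` is at least `1 + 1/g` where `F = v` and at most `1` elsewhere), gives together with small real
rank an efficient deterministic protocol.

The proof. Random hashing turns the equality matrices into rectangles. Take any submatrix. If the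
entries with value `v` have density at most `1 / (4 (r + 1))`, then half of the rows have density at
most `1 / (2 (r + 1))`; a spanning set of these rows vanishes on half of the columns, and so do all
of them. Otherwise one takes the intersection of `t = O(g log r)` rectangles: some such intersection
of measure `2 ^ (- k t)` has density of wrong entries at most `1 / (4 (r + 1))`, and a quarter
of it is monochromatic by the first argument. So all submatrices have large monochromatic rectangles,
and the argument of Nisan and Wigderson applies.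
-/

set_option autoImplicit false

namespace Pool.Agent.Results.MP_e5d384_lc.OneSidedEqualities

/-- `F` has a deterministic two-party protocol with exactly `c` bits. (Protocols exactly as in the
frozen statement S15531: `t` is the transcript so far, `owner t` says who speaks, and the answer is
a function of the transcript.) -/
def HasProtocol {X Y : Type} (F : X → Y → Bool) (c : ℕ) : Prop :=
  ∃ (owner : List Bool → Bool) (a : List Bool → X → Bool)
      (b : List Bool → Y → Bool) (out : List Bool → Bool),
      ∀ x y, out (Nat.iterate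
        (fun t : List Bool => t ++ [if owner t then a t x else b t y]) c []) = F x y

/-- `log₂` of the real rank of the communication matrix of `F` (`0` if the rank is `0`) -/
noncomputable def logRank {X Y : Type} [Fintype X] [Fintype Y] (F : X → Y → Bool) : ℝ :=
  Real.logb 2 ((Matrix.of (fun (x : X) (y : Y) => if F x y then (1 : ℝ) else 0)).rank : ℝ)

open Classical in
/-- The combination `∑ w_i [φ_i(x) = ψ_i(y)]` of equality matrices. -/
noncomputable def comb {X Y I Z : Type} [Fintype I] (φ : I → X → Z) (ψ : I → Y → Z) (w : I → ℝ)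
    (x : X) (y : Y) : ℝ :=
  ∑ i, if φ i x = ψ i y then w i else 0

/-- Some nonnegative combination `∑ w_i [φ_i(x) = ψ_i(y)]` of equality matrices, of total weight at
most `2 ^ k`, is at least `1 + 1 / g` where `F` has the value `v`, and at most `1` elsewhere. (A
rectangle `A × B` is an equality matrix: `φ` is `0` on `A` and `1` elsewhere, `ψ` is `0` on `B` and
`2` elsewhere.) -/
def OneSided {X Y : Type} (F : X → Y → Bool) (v : Bool) (k g : ℕ) : Prop :=
  ∃ (I Z : Type) (_ : Fintype I) (_ : Fintype Z) (φ : I → X → Z) (ψ : I → Y → Z) (w : I → ℝ),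
    (∀ i, 0 ≤ w i) ∧ (∑ i, w i ≤ 2 ^ k) ∧
    (∀ x y, F x y = v → 1 + 1 / (g : ℝ) ≤ comb φ ψ w x y) ∧
    (∀ x y, F x y ≠ v → comb φ ψ w x y ≤ 1)

theorem part1 {X Y : Type} [Fintype X] [Fintype Y] (F : X → Y → Bool) (v : Bool) (k g : ℕ)
    (hg : 1 ≤ g) (h : OneSided F v k g) : ∃ c : ℕ, HasProtocol F c ∧
      (c : ℝ) ≤ 72 * g * (k + Real.logb 2 g + 2) * (logRank F + 1) ^ 2 := by
  obtain ⟨I, Z, _, _, φ, ψ, w, hw, hk, h1, h0⟩ := h
  set r := (Pool.Agent.H630R2.LR.comm F).rank with hr
  have hlr : logRank F = Real.logb 2 (r : ℝ) := rfl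
  have hg0 : (1 : ℝ) ≤ g := by exact_mod_cast hg
  have hlg : 0 ≤ Real.logb 2 (g : ℝ) := Real.logb_nonneg (by norm_num) hg0
  by_cases hr0 : r = 0
  · refine ⟨0, ?_, ?_⟩
    · obtain ⟨T, hT, hs⟩ := Pool.Agent.R533.VC.exists_rows (Pool.Agent.H630R2.LR.comm F)
      have hT0 : T = ∅ := Finset.card_eq_zero.mp (Nat.le_zero.mp (hT.trans hr0.le))
      refine Pool.Agent.H630R2.LR.Proto.const F false fun x y => ?_
      have h3 : (if F x y then (1 : ℝ) else 0) = 0 :=
        Pool.Agent.R533.VC.span_zero (Pool.Agent.H630R2.LR.comm F) T y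
          (fun a ha => absurd ha (by rw [hT0]; simp)) _ (hs x)
      cases hF : F x y
      · rfl
      · rw [hF] at h3
        norm_num at h3
    · rw [Nat.cast_zero]
      positivity
  · have hr1 : 1 ≤ r := Nat.one_le_iff_ne_zero.mpr hr0
    refine ⟨_, Pool.Agent.J4.H83.blocky_proto F v φ ψ w hw k g hg hk h1 h0 hr1, ?_⟩
    rw [hlr, ← hr]
    have hclog : ∀ m : ℕ, 1 ≤ m → (Nat.clog 2 m : ℝ) ≤ Real.logb 2 m + 1 := by
      intro m hm
      rcases Nat.lt_or_ge 1 m with h2 | h2
      · have h3 : 2 ^ (Nat.clog 2 m - 1) < m := Nat.pow_pred_clog_lt_self (by norm_num) h2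
        have h4 : 1 ≤ Nat.clog 2 m := Nat.clog_pos (by norm_num) h2
        have hm0 : (0 : ℝ) < m := by exact_mod_cast hm
        have h5 : ((Nat.clog 2 m - 1 : ℕ) : ℝ) ≤ Real.logb 2 m := by
          rw [Real.le_logb_iff_rpow_le (by norm_num) hm0, Real.rpow_natCast]
          exact_mod_cast h3.le
        rw [Nat.cast_sub h4] at h5
        push_cast at h5
        linarith
      · have : m = 1 := by omega
        subst this
        simp
    have hc := hclog r hr1
    have hcg := hclog g hg
    set c : ℝ := (Nat.clog 2 r : ℝ) with hcdef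
    set cg : ℝ := (Nat.clog 2 g : ℝ) with hcgdef
    set l := Real.logb 2 (r : ℝ) with hl
    have hl0 : 0 ≤ l := Real.logb_nonneg (by norm_num) (by exact_mod_cast hr1)
    set lg := Real.logb 2 (g : ℝ) with hlgdef
    have hc0 : 0 ≤ c := by positivity
    have hcg0 : 0 ≤ cg := by positivity
    have hk0 : (0 : ℝ) ≤ k := by positivity
    push_cast
    rw [← hcdef, ← hcgdef]
    have e1 : (2 * (k : ℝ) + 2 + cg) * (2 * g * (7 + 2 * c)) ≤
        (2 * k + 3 + lg) * (18 * g * (l + 1)) := by
      refine mul_le_mul (by linarith) ?_ (by positivity) (by positivity)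
      nlinarith
    have e2 : (2 * (k : ℝ) + 2 + cg) * (2 * g * (7 + 2 * c)) + c + 4 ≤
        (18 * g * (2 * k + 3 + lg) + 5) * (l + 1) := by nlinarith
    have e3 : 2 * ((2 * (k : ℝ) + 2 + cg) * (2 * g * (7 + 2 * c)) + c + 4) * c ≤
        2 * ((18 * g * (2 * k + 3 + lg) + 5) * (l + 1)) * (l + 1) := by
      refine mul_le_mul (by linarith) hc hc0 (by positivity)
    have e4 : (1 : ℝ) ≤ (l + 1) ^ 2 := by nlinarith
    have e5 : 2 * ((18 * g * (2 * k + 3 + lg) + 5) * (l + 1)) * (l + 1) + 2 ≤
        (36 * g * (2 * k + 3 + lg) + 12) * (l + 1) ^ 2 := by nlinarith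
    have e6 : (36 * (g : ℝ) * (2 * k + 3 + lg) + 12) ≤ 72 * g * (k + lg + 2) := by nlinarith
    have e7 : (36 * (g : ℝ) * (2 * k + 3 + lg) + 12) * (l + 1) ^ 2 ≤
        72 * g * (k + lg + 2) * (l + 1) ^ 2 := mul_le_mul_of_nonneg_right e6 (by positivity)
    linarith

theorem part2 {X Y : Type} (F : X → Y → Bool) (v : Bool) (c : ℕ) (h : HasProtocol F c) :
    OneSided F v (c + 1) 1 := by
  classical
  obtain ⟨owner, a, b, out, hout⟩ := h
  set tr := Pool.Agent.J4.H83.tr owner a b with htr
  have hout' : ∀ x y, out (tr x y c) = F x y := hout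
  let A : List.Vector Bool c → X → Prop := fun s x => ∃ y, tr x y c = s.toList
  let B : List.Vector Bool c → Y → Prop := fun s y => ∃ x, tr x y c = s.toList
  have hAB : ∀ s x y, A s x → B s y → tr x y c = s.toList := by
    rintro s x y ⟨y', h1⟩ ⟨x', h2⟩
    have h3 : Pool.Agent.J4.H83.tr owner a b x y' c = Pool.Agent.J4.H83.tr owner a b x' y c :=
      h1.trans h2.symm
    exact (Pool.Agent.J4.H83.tr_rect owner a b x x' y' y c h3).trans h1
  let φ : List.Vector Bool c → X → Fin 3 := fun s x => if A s x then 0 else 1
  let ψ : List.Vector Bool c → Y → Fin 3 := fun s y => if B s y then 0 else 2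
  let w : List.Vector Bool c → ℝ := fun s => if out s.toList = v then 2 else 0
  have hval : ∀ x y, comb φ ψ w x y = if F x y = v then 2 else 0 := by
    intro x y
    have hlen : (tr x y c).length = c := Pool.Agent.J4.H83.tr_length owner a b x y c
    unfold comb
    obtain ⟨s₀, hs₀⟩ : ∃ s₀ : List.Vector Bool c, s₀.toList = tr x y c := ⟨⟨tr x y c, hlen⟩, rfl⟩
    refine (Finset.sum_eq_single s₀ ?_ ?_).trans ?_
    · intro s _ hs
      refine if_neg ?_
      intro h6
      by_cases h1 : A s x
      · by_cases h2 : B s y
        · exact absurd (Subtype.ext ((hAB s x y h1 h2).symm.trans hs₀.symm)) hs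
        · have h4 : φ s x = 0 := if_pos h1
          have h5 : ψ s y = 2 := if_neg h2
          rw [h4, h5] at h6
          exact absurd h6 (by decide)
      · by_cases h2 : B s y
        · have h4 : φ s x = 1 := if_neg h1
          have h5 : ψ s y = 0 := if_pos h2
          rw [h4, h5] at h6
          exact absurd h6 (by decide)
        · have h4 : φ s x = 1 := if_neg h1
          have h5 : ψ s y = 2 := if_neg h2
          rw [h4, h5] at h6
          exact absurd h6 (by decide)
    · intro h
      exact absurd (Finset.mem_univ s₀) h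
    · have h1 : A s₀ x := ⟨y, hs₀.symm⟩
      have h2 : B s₀ y := ⟨x, hs₀.symm⟩
      have h3 : out s₀.toList = F x y := by rw [hs₀]; exact hout' x y
      have h4 : φ s₀ x = 0 := if_pos h1
      have h5 : ψ s₀ y = 0 := if_pos h2
      rw [if_pos (h4.trans h5.symm)]
      show (if out s₀.toList = v then (2 : ℝ) else 0) = _
      rw [h3]
  refine ⟨List.Vector Bool c, Fin 3, inferInstance, inferInstance, φ, ψ, w, fun s => ?_, ?_,
    fun x y hF => ?_, fun x y hF => ?_⟩
  · show (0 : ℝ) ≤ if out s.toList = v then 2 else 0
    split_ifs <;> norm_num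
  · calc (∑ s : List.Vector Bool c, if out s.toList = v then (2 : ℝ) else 0) ≤
        ∑ s : List.Vector Bool c, (2 : ℝ) := by
          refine Finset.sum_le_sum fun s _ => ?_
          split_ifs <;> norm_num
      _ = 2 ^ (c + 1) := by
          rw [Finset.sum_const, Finset.card_univ, card_vector, Fintype.card_bool, nsmul_eq_mul]
          push_cast
          ring
  · have h2 := hval x y
    rw [if_pos hF] at h2
    calc 1 + 1 / ((1 : ℕ) : ℝ) = 2 := by norm_num
      _ ≤ _ := h2.ge
  · have h2 := hval x y
    rw [if_neg hF] at h2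
    exact h2.le.trans zero_le_one

/-- **One-sided combinations of equality matrices.** (1) Let `F : X × Y → {0,1}` (`X`, `Y` finite) and
`v ∈ {0,1}`. If some nonnegative combination of total weight at most `2 ^ k` of equality matrices
`[φ(x) = ψ(y)]` (for instance, of rectangles) is at least `1 + 1/g` where `F = v` and at most `1`
where `F ≠ v`, then `F` has a deterministic protocol with at most
`72 g (k + log₂ g + 2) (log₂ rank F + 1)^2` bits.
(2) Conversely, a protocol with `c` bits for `F` gives for both `v` such a combination of weight at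
most `2 ^ (c + 1)` with `g = 1`. -/
theorem result :
    (∀ (X Y : Type) [Fintype X] [Fintype Y] (F : X → Y → Bool) (v : Bool) (k g : ℕ), 1 ≤ g →
      OneSided F v k g → ∃ c : ℕ, HasProtocol F c ∧
        (c : ℝ) ≤ 72 * g * (k + Real.logb 2 g + 2) * (logRank F + 1) ^ 2) ∧
    (∀ (X Y : Type) (F : X → Y → Bool) (v : Bool) (c : ℕ), HasProtocol F c →
      OneSided F v (c + 1) 1) :=
  ⟨fun _ _ _ _ F v k g hg h => part1 F v k g hg h, fun _ _ F v c h => part2 F v c h⟩

end Pool.Agent.Results.MP_e5d384_lc.OneSidedEqualities
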